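import Pool.Agent.Lib.SU2K.GrowthFinal

/-!
# Conformal type and area growth of strongly stable H-surfaces

For every left-invariant metric on `SU(2)` and every `H`: no conformal `H`-immersion of the plane is
strongly stable, and for a complete strongly stable conformal `H`-immersion of the unit disc the
area of the intrinsic ball of radius `L` grows at least exponentially in `L`.
-/

noncomputable section

namespace Pool.Agent.Results.MP_f2289d_gt.AreaGrowth

open Pool.Agent.SU2H Pool.Agent.SU2K MeasureTheory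

theorem result (ℓ : Fin 3 → ℝ) (hℓ : ∀ i, 0 < ℓ i) (H : ℝ) :
    (∀ φ, IsConfHSurface ℓ Set.univ φ H → ¬ StronglyStable ℓ Set.univ φ) ∧
    (∀ φ, IsConfHSurface ℓ (Metric.ball 0 1) φ H →
      Complete (Metric.ball 0 1) (fun z => √(lam ℓ φ z)) →
      StronglyStable ℓ (Metric.ball 0 1) φ →
      ∃ a > 0, ∀ L : ℝ, 1 ≤ L → a * Real.exp (a * L) ≤
        ∫ z in {z | ∃ L' < L, Reach (Metric.ball 0 1) (fun z => √(lam ℓ φ z)) L' z}, lam ℓ φ z) :=
  ⟨fun _ hφ => plane_final hℓ hφ, fun _ hφ hc hs => growth hℓ hφ hc hs⟩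

end Pool.Agent.Results.MP_f2289d_gt.AreaGrowth
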