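import Pool.Agent.Lib.SU2K.AxisRatio

/-!
# The axis ratio theorem

There is no complete strongly stable `H`-surface, for any `H`, in `SU(2)` with a left-invariant
metric whose axes `ℓ₀ ≤ ℓ₁ ≤ ℓ₂` satisfy `ℓ₂ ≤ ℓ₁ + (9/5) ℓ₀`.  The scalar curvature of the metric is
positive exactly when `ℓ₂ < ℓ₁ + ℓ₀`.
-/

noncomputable section

namespace Pool.Agent.Results.MP_f2289d_gt.AxisRatio

open Pool.Agent.SU2H Pool.Agent.SU2K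

theorem result (ℓ : Fin 3 → ℝ) (hℓ : ∀ i, 0 < ℓ i) (h01 : ℓ 0 ≤ ℓ 1) (h12 : ℓ 1 ≤ ℓ 2)
    (h : ℓ 2 ≤ ℓ 1 + 9 / 5 * ℓ 0) (H : ℝ) : NoStable ℓ H :=
  noStable_axis hℓ h01 h12 h H

end Pool.Agent.Results.MP_f2289d_gt.AxisRatio
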