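import Pool.Agent.Lib.SU2K.DiscHyp
import Pool.Agent.Lib.SU2K.GoodBerger2

/-!
# Stable H-surfaces in Berger spheres

For the Berger metrics (`ℓ 0 = ℓ 1`, structure constants `c 0 = c 1, c 2`) there is no complete
strongly stable `H`-surface as soon as `10 c₂ (c₂ - c₀) ≤ 9 (4H² + c₂²)`.  The known criterion
`3H² + S/2 > 0` reads `4 c₂ (c₂ - c₀) < 3 (4H² + c₂²)`.  For `c₂ ≤ 10 c₀` the condition holds for
every `H`; the scalar curvature is negative as soon as `c₂ > 4 c₀`.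
-/

noncomputable section

namespace Pool.Agent.Results.MP_f2289d_gt.BergerSpheres

open Pool.Agent.SU2H Pool.Agent.SU2K

theorem result (ℓ : Fin 3 → ℝ) (hℓ : ∀ i, 0 < ℓ i) (hB : ℓ 0 = ℓ 1) (H : ℝ)
    (h : 10 * sc ℓ 2 * (sc ℓ 2 - sc ℓ 0) ≤ 9 * (4 * H ^ 2 + sc ℓ 2 ^ 2)) : NoStable ℓ H := by
  have h01 : sc ℓ 0 = sc ℓ 1 := by
    unfold sc
    rw [hB]
  by_cases hle : sc ℓ 2 ≤ sc ℓ 0
  · refine noStable_of_good hℓ (good_berger (sc_pos hℓ) h01 ?_)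
    have h2 := sc_pos hℓ 2
    nlinarith [sq_nonneg H, mul_nonneg h2.le (sub_nonneg.2 hle), mul_pos h2 h2]
  · exact noStable_of_good2 hℓ (good2_berger (sc_pos hℓ) h01 (not_le.1 hle) h)

end Pool.Agent.Results.MP_f2289d_gt.BergerSpheres
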